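import Mathlib

/-!
# The exclusive sum number is bounded by a function of the sum index

We show `ε(G) ≤ σ(G) · 4 ^ σ(G)` for every finite graph `G`.
-/

namespace Pool.Agent.Results.MP_091b59_co.BoundedBySumIndex

open Function

variable {V : Type*}

/-- The sum index `σ(G)`: the least possible number of values `f u + f v`, `uv ∈ E(G)`, over all
injective `f : V → ℤ`. -/
noncomputable def sumIndex (G : SimpleGraph V) : ℕ :=
  sInf {n | ∃ f : V → ℤ, Injective f ∧ {s | ∃ u v, G.Adj u v ∧ f u + f v = s}.ncard = n}

/-- `g` makes `G ∪ (r isolated vertices)` a sum graph in which every edge sum of `G` is the label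
of one of the `r` added isolated vertices. -/
def IsExclusiveLabelling (G : SimpleGraph V) (r : ℕ) (g : V ⊕ Fin r → ℤ) : Prop :=
  (∀ x, 0 < g x) ∧ Injective g ∧
    (∀ x y, x ≠ y → ((SimpleGraph.sum G (⊥ : SimpleGraph (Fin r))).Adj x y ↔
      ∃ w, g x + g y = g w)) ∧
    ∀ u v : V, G.Adj u v → ∃ i : Fin r, g (Sum.inl u) + g (Sum.inl v) = g (Sum.inr i)

/-- The exclusive sum number `ε(G)`. -/
noncomputable def exclusiveSumNumber (G : SimpleGraph V) : ℕ :=
  sInf {r | ∃ g : V ⊕ Fin r → ℤ, IsExclusiveLabelling G r g}

theorem pow_sidon {i j k l : ℕ} (h : (3 : ℤ) ^ i + 3 ^ j = 3 ^ k + 3 ^ l) :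
    (i = k ∧ j = l) ∨ (i = l ∧ j = k) := by
  have h' : 3 ^ i + 3 ^ j = 3 ^ k + 3 ^ l := by exact_mod_cast h
  have mono : ∀ {a b : ℕ}, a ≤ b → 3 ^ a ≤ 3 ^ b := fun h => Nat.pow_le_pow_right (by norm_num) h
  have step : ∀ {a b c : ℕ}, a ≤ b → b < c → 3 ^ a + 3 ^ b < 3 ^ c := by
    intro a b c hab hbc
    have h1 := mono hab
    have h2 : 3 ^ (b + 1) ≤ 3 ^ c := mono hbc
    have h3 : 0 < 3 ^ b := by positivity
    rw [pow_succ] at h2
    omega
  have inj : ∀ {a b : ℕ}, 3 ^ a = 3 ^ b → a = b := fun h => Nat.pow_right_injective (by norm_num) h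
  have main : ∀ {i j k l : ℕ}, i ≤ j → k ≤ l → 3 ^ i + 3 ^ j = 3 ^ k + 3 ^ l →
      i = k ∧ j = l := by
    intro i j k l hij hkl h
    have p1 : 0 < 3 ^ i := by positivity
    have p2 : 0 < 3 ^ k := by positivity
    rcases lt_trichotomy j l with h1 | h1 | h1
    · have := step hij h1
      omega
    · subst h1
      exact ⟨inj (by omega), rfl⟩
    · have := step hkl h1
      omega
  rcases le_total i j with h1 | h1 <;> rcases le_total k l with h2 | h2
  · exact Or.inl (main h1 h2 h')
  · exact Or.inr (main h1 h2 (by omega))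
  · have := main h1 h2 (by omega)
    exact Or.inr ⟨this.2, this.1⟩
  · have := main h1 h2 (by omega)
    exact Or.inl ⟨this.2, this.1⟩

theorem split {M a b x y : ℤ} (h : M * a + x = M * b + y) (h1 : x - y < M) (h2 : y - x < M)
    (hM : 0 < M) : a = b ∧ x = y := by
  have h3 : M * (a - b) = y - x := by linarith
  have h4 : a - b = 0 := by
    rcases lt_trichotomy (a - b) 0 with h | h | h
    · have : M * (a - b) ≤ M * (-1) := mul_le_mul_of_nonneg_left (by omega) hM.le
      linarith
    · exact h
    · have : M * 1 ≤ M * (a - b) := mul_le_mul_of_nonneg_left (by omega) hM.le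
      linarith
  have h5 : a = b := by omega
  subst h5
  exact ⟨rfl, by linarith⟩

/-- **Main result.** For every finite graph, `ε(G) ≤ σ(G) · 4 ^ σ(G)`. -/
theorem result (V : Type*) [Finite V] (G : SimpleGraph V) :
    exclusiveSumNumber G ≤ sumIndex G * 4 ^ sumIndex G := by
  classical
  have := Fintype.ofFinite V
  have hne : {n | ∃ f : V → ℤ, Injective f ∧
      {s | ∃ u v, G.Adj u v ∧ f u + f v = s}.ncard = n}.Nonempty := by
    refine ⟨_, fun v => ((Fintype.equivFin V v).val : ℤ), ?_, rfl⟩
    intro u v h
    have h' : (Fintype.equivFin V u).val = (Fintype.equivFin V v).val := Int.ofNat.inj h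
    exact (Fintype.equivFin V).injective (Fin.ext h')
  obtain ⟨f, hf, hcard⟩ := Nat.sInf_mem hne
  change _ = sumIndex G at hcard
  set σ := sumIndex G with hσ
  -- the set of edge sums
  let S : Finset ℤ := (Finset.univ.filter (fun p : V × V => G.Adj p.1 p.2)).image
    (fun p => f p.1 + f p.2)
  have memS : ∀ s, s ∈ S ↔ ∃ u v, G.Adj u v ∧ f u + f v = s := by
    intro s
    simp [S]
  have hS : S.card = σ := by
    rw [← hcard, ← Set.ncard_coe_finset]
    congr 1
    ext s
    rw [Finset.mem_coe, memS]
    rfl
  -- the type of a vertex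
  let φ : V → Finset ℤ := fun v => S.filter (fun s => ∃ w, G.Adj v w ∧ f v + f w = s)
  have hφ : ∀ v, φ v ∈ S.powerset := fun v => Finset.mem_powerset.2 (Finset.filter_subset _ _)
  obtain ⟨idx, hidx⟩ : ∃ idx : S.powerset → ℕ, Injective idx :=
    ⟨fun a => (S.powerset.equivFin a).val, fun a b h =>
      S.powerset.equivFin.injective (Fin.ext h)⟩
  let wt : S.powerset → ℤ := fun a => 3 ^ idx a
  have wt_pos : ∀ a, 0 < wt a := fun a => by positivity
  obtain ⟨B, hB⟩ : ∃ B : ℤ, ∀ a, wt a ≤ B := by
    refine ⟨∑ a : S.powerset, wt a, fun a => ?_⟩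
    exact Finset.single_le_sum (f := wt) (fun b _ => (wt_pos b).le) (Finset.mem_univ a)
  have hB0 : 0 < B := lt_of_lt_of_le (wt_pos ⟨∅, by simp⟩) (hB _)
  let τ : V → S.powerset := fun v => ⟨φ v, hφ v⟩
  let M : ℤ := 2 * B
  have hM : 0 < M := by positivity
  let g0 : V → ℤ := fun v => M * f v + wt (τ v)
  have hg0 : Injective g0 := by
    intro u v h
    have h1 := wt_pos (τ u)
    have h2 := wt_pos (τ v)
    have h3 := hB (τ u)
    have h4 := hB (τ v)
    exact hf (split h (by omega) (by omega) hM).1
  obtain ⟨W, hW⟩ : ∃ W : ℤ, ∀ v, |g0 v| ≤ W :=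
    ⟨∑ v, |g0 v|, fun v => Finset.single_le_sum (f := fun v => |g0 v|)
      (fun b _ => abs_nonneg _) (Finset.mem_univ v)⟩
  let W' : ℤ := max W 0
  have hW' : ∀ v, |g0 v| ≤ W' := fun v => (hW v).trans (le_max_left _ _)
  have hW0 : 0 ≤ W' := le_max_right _ _
  let T : ℤ := 5 * W' + 1
  let gV : V → ℤ := fun v => T + g0 v
  have gV_lo : ∀ v, T - W' ≤ gV v := fun v => by
    have := neg_le_of_abs_le (hW' v)
    simp only [gV]; linarith
  have gV_hi : ∀ v, gV v ≤ T + W' := fun v => by
    have := le_of_abs_le (hW' v)
    simp only [gV]; linarith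
  -- the labels of the isolated vertices
  let R : Finset ℤ := (Finset.univ.filter (fun p : V × V => G.Adj p.1 p.2)).image
    (fun p => gV p.1 + gV p.2)
  have memR : ∀ s, s ∈ R ↔ ∃ u v, G.Adj u v ∧ gV u + gV v = s := by
    intro s
    simp [R]
  have hRcard : R.card ≤ σ * 4 ^ σ := by
    have hsub : R ⊆ (S ×ˢ (Finset.univ ×ˢ Finset.univ : Finset (S.powerset × S.powerset))).image
        (fun q => 2 * T + M * q.1 + wt q.2.1 + wt q.2.2) := by
      intro s hs
      obtain ⟨u, v, huv, rfl⟩ := (memR s).1 hs
      rw [Finset.mem_image]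
      refine ⟨(f u + f v, τ u, τ v), ?_, ?_⟩
      · simp only [Finset.mem_product, Finset.mem_univ, and_true]
        exact (memS _).2 ⟨u, v, huv, rfl⟩
      · simp only [gV, g0]
        ring
    refine (Finset.card_le_card hsub).trans (Finset.card_image_le.trans ?_)
    rw [Finset.card_product, Finset.card_product, hS, Finset.card_univ, Fintype.card_coe,
      Finset.card_powerset, hS, ← pow_add, ← two_mul, pow_mul]
    norm_num
  have R_lo : ∀ s ∈ R, 2 * T - 2 * W' ≤ s := by
    intro s hs
    obtain ⟨u, v, -, rfl⟩ := (memR s).1 hs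
    have h1 := gV_lo u
    have h2 := gV_lo v
    linarith
  have R_hi : ∀ s ∈ R, s ≤ 2 * T + 2 * W' := by
    intro s hs
    obtain ⟨u, v, -, rfl⟩ := (memR s).1 hs
    have h1 := gV_hi u
    have h2 := gV_hi v
    linarith
  have hTdef : T = 5 * W' + 1 := rfl
  -- exactness
  have exact' : ∀ u v, u ≠ v → gV u + gV v ∈ R → G.Adj u v := by
    intro u v huv hs
    obtain ⟨a, b, hab, h⟩ := (memR _).1 hs
    have h' : M * (f a + f b) + (wt (τ a) + wt (τ b)) =
        M * (f u + f v) + (wt (τ u) + wt (τ v)) := by
      simp only [gV, g0] at h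
      linarith
    have p1 := wt_pos (τ a)
    have p2 := wt_pos (τ b)
    have p3 := wt_pos (τ u)
    have p4 := wt_pos (τ v)
    have q1 := hB (τ a)
    have q2 := hB (τ b)
    have q3 := hB (τ u)
    have q4 := hB (τ v)
    obtain ⟨h1, h2⟩ := split h' (by omega) (by omega) hM
    have hsa : f a + f b ∈ φ a := by
      simp only [φ, Finset.mem_filter]
      exact ⟨(memS _).2 ⟨a, b, hab, rfl⟩, b, hab, rfl⟩
    have hsb : f a + f b ∈ φ b := by
      simp only [φ, Finset.mem_filter]
      exact ⟨(memS _).2 ⟨a, b, hab, rfl⟩, a, hab.symm, add_comm _ _⟩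
    have hsu : f a + f b ∈ φ u := by
      rcases pow_sidon h2 with ⟨h3, -⟩ | ⟨-, h3⟩
      · have h4 : φ a = φ u := congrArg Subtype.val (hidx h3)
        rwa [← h4]
      · have h4 : φ b = φ u := congrArg Subtype.val (hidx h3)
        rwa [← h4]
    simp only [φ, Finset.mem_filter] at hsu
    obtain ⟨-, w, huw, hw⟩ := hsu
    have h5 : w = v := hf (by omega)
    exact h5 ▸ huw
  -- the labelling
  let r := R.card
  let g : V ⊕ Fin r → ℤ := Sum.elim gV (fun i => (R.equivFin.symm i : ℤ))
  have hgR : ∀ i : Fin r, g (Sum.inr i) ∈ R := fun i => (R.equivFin.symm i).2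
  have hlab : IsExclusiveLabelling G r g := by
    refine ⟨?_, ?_, ?_, ?_⟩
    · rintro (v | i)
      · have h1 := gV_lo v
        change 0 < gV v
        omega
      · have h1 := R_lo _ (hgR i)
        omega
    · rintro (u | i) (v | j) h
      · have : g0 u = g0 v := by
          change T + g0 u = T + g0 v at h
          omega
        rw [hg0 this]
      · exfalso
        have h1 := gV_hi u
        have h2 := R_lo _ (hgR j)
        rw [← h] at h2
        change _ ≤ gV u at h2
        omega
      · exfalso
        have h1 := gV_hi v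
        have h2 := R_lo _ (hgR i)
        rw [h] at h2
        change _ ≤ gV v at h2
        omega
      · have : R.equivFin.symm i = R.equivFin.symm j := Subtype.ext h
        rw [R.equivFin.symm.injective this]
    · rintro (u | i) (v | j) hne'
      · rw [SimpleGraph.sum_adj_inl]
        constructor
        · intro huv
          have hs : gV u + gV v ∈ R := (memR _).2 ⟨u, v, huv, rfl⟩
          refine ⟨Sum.inr (R.equivFin ⟨_, hs⟩), ?_⟩
          simp [g]
        · rintro ⟨w | i, hw⟩
          · exfalso
            change gV u + gV v = gV w at hw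
            have h1 := gV_lo u
            have h2 := gV_lo v
            have h3 := gV_hi w
            omega
          · apply exact' u v (fun h => hne' (by rw [h]))
            change gV u + gV v = _ at hw
            rw [hw]
            exact hgR i
      · constructor
        · intro h
          simp [SimpleGraph.sum] at h
        · rintro ⟨w | k, hw⟩
          · exfalso
            change gV u + _ = gV w at hw
            have h1 := gV_lo u
            have h2 := R_lo _ (hgR j)
            have h3 := gV_hi w
            omega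
          · exfalso
            change gV u + _ = _ at hw
            have h1 := gV_lo u
            have h2 := R_lo _ (hgR j)
            have h3 := R_hi _ (hgR k)
            omega
      · constructor
        · intro h
          simp [SimpleGraph.sum] at h
        · rintro ⟨w | k, hw⟩
          · exfalso
            change _ + gV v = gV w at hw
            have h1 := gV_lo v
            have h2 := R_lo _ (hgR i)
            have h3 := gV_hi w
            omega
          · exfalso
            change _ + gV v = _ at hw
            have h1 := gV_lo v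
            have h2 := R_lo _ (hgR i)
            have h3 := R_hi _ (hgR k)
            omega
      · constructor
        · intro h
          simp [SimpleGraph.sum] at h
        · rintro ⟨w | k, hw⟩
          · exfalso
            change _ = gV w at hw
            have h1 := R_lo _ (hgR i)
            have h2 := R_lo _ (hgR j)
            have h3 := gV_hi w
            omega
          · exfalso
            have h1 := R_lo _ (hgR i)
            have h2 := R_lo _ (hgR j)
            have h3 := R_hi _ (hgR k)
            omega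
    · intro u v huv
      have hs : gV u + gV v ∈ R := (memR _).2 ⟨u, v, huv, rfl⟩
      exact ⟨R.equivFin ⟨_, hs⟩, by simp [g]⟩
  exact le_trans (Nat.sInf_le ⟨g, hlab⟩) hRcard

end Pool.Agent.Results.MP_091b59_co.BoundedBySumIndex
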